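import Pool.Agent.helper48.EXI.Spec2
import Pool.Agent.helper83.EXI.KH2

/-!
# Block EXI of project NPT (MP_8f32d0_ag), row KH3: duality and smoothness
-/

set_option autoImplicit false

namespace EXI

open scoped Classical
open AN
open Pool.Agent.helper53.AU

noncomputable section

variable {L : Type} [Field L]

/-- even part and odd part -/
theorem KH3_dec (f : LS L) : ∃ a b : LS L, KH2_Ev a ∧ KH2_Od b ∧ f = a + b := by
  obtain ⟨N, hN⟩ := exists_lb f
  refine ⟨ofFun (fun n => if Even n then cf f n else 0) N (fun n hn => ?_), ofFun (fun n => if Even n then 0 else cf f n) N (fun n hn => ?_), ?_, ?_, ?_⟩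
  · rw [hN n hn, ite_self]
  · rw [hN n hn, ite_self]
  · intro n hn
    rw [cf_ofFun, if_neg hn]
  · intro n hn
    rw [cf_ofFun, if_pos hn]
  · apply LS.ext
    intro n
    rw [cf_add, cf_ofFun, cf_ofFun]
    by_cases h : Even n
    · rw [if_pos h, if_pos h, add_zero]
    · rw [if_neg h, if_neg h, zero_add]

theorem KH3_eo {f : LS L} (he : KH2_Ev f) (ho : KH2_Od f) : f = 0 := by
  apply LS.ext
  intro n
  rw [cf_zero]
  by_cases h : Even n
  · exact ho n h
  · exact he n h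

theorem KH3_one : KH2_Ev (1 : LS L) := by
  intro n hn
  rw [cf_one, if_neg]
  intro h
  rw [h] at hn
  exact hn Even.zero

theorem KH3_inv {y : LS L} (hy : KH2_Od y) (h0 : y ≠ 0) : KH2_Od y⁻¹ := by
  obtain ⟨a, b, ha, hb, hab⟩ := KH3_dec y⁻¹
  have h1 : y * a = 1 - y * b := by
    have h2 : y * y⁻¹ = 1 := mul_inv_cancel₀ h0
    rw [hab, mul_add] at h2
    rw [← h2]
    ring
  have h3 : KH2_Od (y * a) := by
    rw [mul_comm]
    exact KH2_eo ha hy
  have h4 : KH2_Ev (y * a) := by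
    rw [h1]
    intro n hn
    rw [cf_sub, KH3_one n hn, KH2_oo hy hb n hn, sub_zero]
  have h5 := KH3_eo h4 h3
  have h6 : a = 0 := (mul_eq_zero.1 h5).resolve_left h0
  rw [hab, h6, zero_add]
  exact hb

/-- even series without positive powers are polynomials in `x` -/
theorem KH3_pol {a : LS L} (ha : KH2_Ev a) (h : ∀ n : ℕ, cf a (2 * (n : ℤ) + 2) = 0) : a ∈ KH2_X L := by
  obtain ⟨N, hN⟩ := exists_lb_nat a
  have h1 : a = ∑ k ∈ Finset.range (N + 1), cf a (-(2 * (k : ℤ))) • KH2_x L k := by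
    apply LS.ext
    intro n
    rw [cf_sum]
    by_cases hn : Even n
    · obtain ⟨m, hm⟩ := hn
      rcases lt_or_ge 0 m with hm0 | hm0
      · have e1 : n = 2 * ((m - 1).toNat : ℤ) + 2 := by
          rw [Int.toNat_of_nonneg (by omega)]
          omega
        rw [e1, h, ← e1]
        symm
        refine Finset.sum_eq_zero fun k _ => ?_
        unfold KH2_x
        rw [cf_smul, cf_mono, if_neg (by omega), mul_zero]
      · obtain ⟨k0, hk0⟩ : ∃ k : ℕ, n = -(2 * (k : ℤ)) := ⟨(-m).toNat, by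
          rw [Int.toNat_of_nonneg (by omega)]
          omega⟩
        rcases lt_or_ge k0 (N + 1) with hk | hk
        · rw [Finset.sum_eq_single_of_mem k0 (Finset.mem_range.2 hk)]
          · unfold KH2_x
            rw [cf_smul, cf_mono, if_pos hk0, mul_one, hk0]
          · intro k _ hne
            unfold KH2_x
            rw [cf_smul, cf_mono, if_neg (by omega), mul_zero]
        · rw [hN n (by omega)]
          symm
          refine Finset.sum_eq_zero fun k hk' => ?_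
          rw [Finset.mem_range] at hk'
          unfold KH2_x
          rw [cf_smul, cf_mono, if_neg (by omega), mul_zero]
    · rw [ha n hn]
      symm
      refine Finset.sum_eq_zero fun k _ => ?_
      rw [cf_smul, KH2_Xev (KH2_mem k) n hn, mul_zero]
  rw [h1]
  exact (KH2_X L).sum_mem fun k _ => (KH2_X L).smul_mem _ (KH2_mem k)

theorem KH3_pow (n : ℕ) : KH2_x L 1 ^ n = KH2_x L n := by
  induction n with
  | zero =>
    rw [pow_zero]
    apply LS.ext
    intro k
    unfold KH2_x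
    rw [cf_one, cf_mono]
    simp
  | succ n ih => rw [pow_succ, ih, KH2_xmul]

theorem KH3_ae (P : Polynomial L) : Polynomial.aeval (KH2_x L 1) P ∈ KH2_X L := by
  induction P using Polynomial.induction_on' with
  | add p q hp hq =>
    rw [map_add]
    exact (KH2_X L).add_mem hp hq
  | monomial n c =>
    rw [Polynomial.aeval_monomial, KH3_pow, algebraMap_eq, C_mul]
    exact (KH2_X L).smul_mem _ (KH2_mem n)

theorem KH3_F {N : ℕ} (t : Fin N → L) : Polynomial.aeval (KH2_x L 1) (∏ i, (Polynomial.X - Polynomial.C (t i))) = E2 (fx t) := by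
  unfold fx
  rw [map_prod, map_prod]
  refine Finset.prod_congr rfl fun i _ => ?_
  rw [map_sub, map_sub, Polynomial.aeval_X, Polynomial.aeval_C, algebraMap_eq, C_eq_mono, KH2_E2m, KH2_E2m]
  unfold KH2_x
  rfl

/-- **KH3** -/
theorem KH3 (hKH2 : KH2_stmt) : KH3_stmt := by
  intro L _ h2 g t y hy ht η hη
  obtain ⟨hmul, -⟩ := hKH2 L h2 g t y hy
  have hyo : KH2_Od y := hy.odd
  have hy0 : y ≠ 0 := by
    intro h
    have := hy.lead
    rw [h, cf_zero] at this
    exact not_isUnit_zero this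
  obtain ⟨ξ, hξ⟩ : ∃ ξ, ξ = dd (KH2_x L 1) := ⟨_, rfl⟩
  have hξm : ξ = mono (-3) (-2) := by
    rw [hξ]
    unfold KH2_x
    rw [dd_mono]
    norm_num
  have hξ0 : ξ ≠ 0 := by
    intro h
    rw [hξm] at h
    have h3 := congrArg (fun f => cf f (-3)) h
    simp only [cf_mono, cf_zero, if_true] at h3
    exact h2 (neg_eq_zero.1 h3)
  have hξo : KH2_Od ξ := by
    rw [hξ]
    exact KH2_de (KH2_Xev (KH2_mem 1))
  have hyi := KH3_inv hyo hy0
  obtain ⟨a, o, ha, ho, hao⟩ := KH3_dec (η * y * ξ⁻¹)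
  obtain ⟨b, hb⟩ : ∃ b, b = o * y⁻¹ := ⟨_, rfl⟩
  have hbe : KH2_Ev b := by
    rw [hb]
    exact KH2_oo ho hyi
  have hw : η * y * ξ⁻¹ = a + b * y := by
    rw [hao, hb, mul_assoc, inv_mul_cancel₀ hy0, mul_one]
  have hW : KH2_Ev (ξ * y⁻¹) := KH2_oo hξo hyi
  have hη1 : η = (a + b * y) * (ξ * y⁻¹) := by
    rw [← hw]
    field_simp
  have hxm : ∀ n : ℕ, KH2_x L n ∈ VV y := fun n => Submodule.subset_span ⟨n, Or.inl rfl⟩
  have hxym : ∀ n : ℕ, KH2_x L n * y ∈ VV y := fun n => Submodule.subset_span ⟨n, Or.inr rfl⟩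
  have hcf : ∀ (n : ℕ) (c : LS L), res (KH2_x L n * ξ * c) = -2 * cf c (2 * (n : ℤ) + 2) := by
    intro n c
    rw [hξm]
    unfold KH2_x res
    rw [mono_mul_mono, cf_mono_mul, one_mul]
    congr 2
    ring
  have hb0 : ∀ n : ℕ, cf b (2 * (n : ℤ) + 2) = 0 := by
    intro n
    have h3 := hη _ (hxm n)
    have h4 : KH2_x L n * η = KH2_x L n * a * (ξ * y⁻¹) + KH2_x L n * ξ * b := by
      rw [hη1]
      field_simp
    rw [h4, res_add, KH2_res (KH2_ee (KH2_ee (KH2_Xev (KH2_mem n)) ha) hW), zero_add, hcf] at h3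
    exact (mul_eq_zero.1 h3).resolve_left (neg_ne_zero.2 h2)
  have ha0 : ∀ n : ℕ, cf a (2 * (n : ℤ) + 2) = 0 := by
    intro n
    have h3 := hη _ (hxym n)
    have h4 : KH2_x L n * y * η = KH2_x L n * ξ * a + KH2_x L n * b * (y * ξ) := by
      rw [hη1]
      field_simp
    rw [h4, res_add, KH2_res (KH2_ee (KH2_ee (KH2_Xev (KH2_mem n)) hbe) (KH2_oo hyo hξo)), add_zero, hcf] at h3
    exact (mul_eq_zero.1 h3).resolve_left (neg_ne_zero.2 h2)
  have hwV : a + b * y ∈ VV y := (KH2_VV y _).2 ⟨a, KH3_pol ha ha0, b, KH3_pol hbe hb0, rfl⟩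
  have hXV : ∀ f ∈ KH2_X L, f ∈ VV y := fun f hf => (KH2_VV y f).2 ⟨f, hf, 0, (KH2_X L).zero_mem, by rw [zero_mul, add_zero]⟩
  have hyV : y ∈ VV y := (KH2_VV y y).2 ⟨0, (KH2_X L).zero_mem, 1, KH2_one, by rw [one_mul, zero_add]⟩
  -- separability
  obtain ⟨U, V, hUV⟩ := (Polynomial.separable_prod_X_sub_C_iff.2 ht : (∏ i, (Polynomial.X - Polynomial.C (t i))).Separable)
  have hUV' := congrArg (Polynomial.aeval (KH2_x L 1)) hUV
  rw [map_add, map_mul, map_mul, map_one, KH3_F, ← hy.sq] at hUV'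
  have hder : (Polynomial.aeval (KH2_x L 1)) (Polynomial.derivative (∏ i, (Polynomial.X - Polynomial.C (t i)))) * ξ = dd (y ^ 2) := by
    have h3 := (ddD L).map_aeval (∏ i, (Polynomial.X - Polynomial.C (t i))) (KH2_x L 1)
    rw [ddD_apply, ddD_apply, KH3_F, ← hy.sq, ← hξ, smul_eq_mul] at h3
    exact h3.symm
  rw [pow_two, dd_mul] at hder
  obtain ⟨u, hu⟩ : ∃ u, u = Polynomial.aeval (KH2_x L 1) U := ⟨_, rfl⟩
  obtain ⟨v, hv⟩ : ∃ v, v = Polynomial.aeval (KH2_x L 1) V := ⟨_, rfl⟩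
  obtain ⟨f', hf'⟩ : ∃ f', f' = (Polynomial.aeval (KH2_x L 1)) (Polynomial.derivative (∏ i, (Polynomial.X - Polynomial.C (t i)))) := ⟨_, rfl⟩
  have huV : u ∈ VV y := by
    rw [hu]
    exact hXV _ (KH3_ae U)
  have hvV : v ∈ VV y := by
    rw [hv]
    exact hXV _ (KH3_ae V)
  rw [← hu, ← hv, ← hf'] at hUV'
  rw [← hf'] at hder
  have hη2 : η = ((a + b * y) * u * y) * dd (KH2_x L 1) + (((a + b * y) * v) * dd y + ((a + b * y) * v) * dd y) := by
    rw [← hξ]
    have h3 : ξ * y⁻¹ = u * y * ξ + v * (dd y + dd y) := by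
      have h4 : (u * y ^ 2 + v * f') * (ξ * y⁻¹) = u * y * ξ + v * (f' * ξ) * y⁻¹ := by
        field_simp
      rw [hUV', one_mul, hder] at h4
      rw [h4]
      field_simp
    rw [hη1, h3]
    ring
  rw [hη2]
  have hs1 := hmul _ (hmul _ hwV _ huV) _ hyV
  have hs2 := hmul _ hwV _ hvV
  refine Submodule.add_mem _ (Submodule.subset_span ⟨_, hs1, _, hxm 1, rfl⟩) (Submodule.add_mem _ ?_ ?_)
  · exact Submodule.subset_span ⟨_, hs2, _, hyV, rfl⟩
  · exact Submodule.subset_span ⟨_, hs2, _, hyV, rfl⟩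

end

end EXI
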